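import Mathlib
import Pool.Agent.U69.RR.Main

set_option autoImplicit false

/-!
# Adding random reals always makes the polarized relation fail at the dominating number

Let `L` be any nonempty set (for the question: `#L > 𝔡`). Every condition of the forcing which adds
`#L` random reals forces that cardinals are preserved, that `𝔡` is the dominating number of the
ground model, and that the strong polarized relation fails for `𝔡` and `ω`.

Proof. Let `(D b : b < 𝔡)` be a dominating family in the ground model. For each `a < 𝔡` there is
a partition of `ω` into intervals, infinitely many of which contain an interval `[m, D b m)`, for
each `b < a`. Colour the pair `(a, k)` by the value of one random real at the number of the interval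
of the `a`-th partition which contains `k`. An infinite set `B` of the extension meets
`[m, D b m)` for all large `m`, for some `b`, as random forcing is bounding; and the random real is
not constant on an infinite set of the ground model. So no row `a > b` is constant on `B`.
-/

namespace Pool.Agent.Results.MP_95a70f_lc.RandomReals

open Cardinal Pool.Agent.Helper669.Forcing Pool.Agent.Helper669.Forcing2
open Pool.Agent.Helper669.Dom Pool.Agent.R582.Rand Pool.Agent.U69.RR

/-- The forcing which adds `#L` random reals: the measurable subsets of `2 ^ (L × ω)` of positive
measure, for the product of the fair coin tossing measures, where `p ≤ q` iff `p \ q` is null. -/
abbrev RandomForcing (L : Type) : Type := MAlg (coins (L × ℕ))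

/-- For every nonempty set `L`, every condition of the forcing which adds `#L` random reals forces:
cardinals are preserved, the dominating number is the cardinal `dNum`, which is the dominating
number of the ground model, and the strong polarized relation fails for it and `ω`. -/
theorem result (L : Type) [Nonempty L] (p : RandomForcing L) :
    p ∈ CardinalsPreserved.{0, 0} (RandomForcing L) ∧
      p ∈ DomIs (RandomForcing L) dNum ∧
        p ∈ fnot (Polarized (RandomForcing L) dNum.out ℕ) :=
  ⟨cardinalsPreserved ccc p, domIs p, not_polarized _ (mk_out _) p⟩

end Pool.Agent.Results.MP_95a70f_lc.RandomReals
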